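import Pool.Agent.K3h48.AC.Ex

/-!
# Which truncated Toeplitz operators have all their complex symmetric matrices from modified
Aleksandrov-Clark bases

Let `M` be a complex symmetric `n × n` matrix which is unitarily equivalent to a truncated Toeplitz
operator.  For every real orthogonal `O` the matrix `Oᵀ M O` is complex symmetric and unitarily
equivalent to the same operator.  We show that all these matrices are matrices of truncated Toeplitz
operators in modified Aleksandrov-Clark bases exactly if `n ≤ 2` or `M` is a multiple of the unit
matrix.  So for `n ≥ 3` the question has a negative answer for every truncated Toeplitz operator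
which is not a multiple of the identity.

Idea.  In a modified Aleksandrov-Clark basis the entries `M i j`, `M j k`, `M i k` satisfy a real
linear relation with nonzero coefficients for all distinct `i, j, k`.  Write `M = X + i Y` with real
symmetric `X`, `Y`.  If there are orthonormal real vectors `u, v, w` such that the complex numbers
`⟨u, M v⟩` and `⟨u, M w⟩` are linearly independent over `ℝ`, then by rotating `v, w` in their plane
and the intermediate value theorem one can arrange in addition that `⟨v, M w⟩` is a real multiple of
`⟨u, M v⟩`, and then there is no such relation.  Otherwise `M` has three eigenvectors among the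
eigenvectors of `X` or `Y`, and one rotates two of them by 45 degrees.

The definitions (model spaces, truncated Toeplitz operators, modified Aleksandrov-Clark bases) are
in `Pool/Agent/K3h48/AC/Neg.lean`, and `conjBy O M = Oᵀ M O` is in `Pool/Agent/K3h48/AC/Mat.lean`.
-/

set_option autoImplicit false

namespace Pool.Agent.Results.MP_3119c3_an.EveryOperator

open Pool.Agent.K3h48.AC

/-- **Main result.** -/
theorem result :
    -- the matrices `Oᵀ M O` with `O` real orthogonal
    (∀ (n : ℕ) (M : Matrix (Fin n) (Fin n) ℂ) (O : Matrix (Fin n) (Fin n) ℝ), M.IsSymm →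
      UnitarilyEquivalentToTTO M → O.transpose * O = 1 →
      (conjBy O M).IsSymm ∧ UnitarilyEquivalentToTTO (conjBy O M)) ∧
    -- when all of them have modified Aleksandrov-Clark representations
    (∀ (n : ℕ) (M : Matrix (Fin n) (Fin n) ℂ), 1 ≤ n → M.IsSymm → UnitarilyEquivalentToTTO M →
      ((∀ O : Matrix (Fin n) (Fin n) ℝ, O.transpose * O = 1 →
        HasModifiedACRepresentation (conjBy O M)) ↔ n ≤ 2 ∨ ∃ c : ℂ, M = c • 1)) ∧
    -- the question has a negative answer for every `n ≥ 3`
    (∀ n : ℕ, 3 ≤ n → ∃ M : Matrix (Fin n) (Fin n) ℂ, M.IsSymm ∧ UnitarilyEquivalentToTTO M ∧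
      ¬ HasModifiedACRepresentation M) := by
  refine ⟨fun n M O hM h hO => ⟨conjBy_symm O hM, conj_tto h hO⟩, ?_, ?_⟩
  · intro n M hn hM hT
    constructor
    · intro h
      by_contra hcon
      push Not at hcon
      obtain ⟨h2, hns⟩ := hcon
      obtain ⟨O, hO, h1⟩ := neg_part h2 hM hns
      exact h1 (h O hO)
    · intro h O hO
      have hscal : ∀ c : ℂ, M = c • 1 → HasModifiedACRepresentation (conjBy O M) := by
        rintro c rfl
        have e : conjBy O (c • (1 : Matrix (Fin n) (Fin n) ℂ)) = c • 1 := by
          unfold conjBy
          rw [Matrix.mul_smul, Matrix.mul_one, Matrix.smul_mul, ← conj_ofReal_map,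
            unitary_of_orth hO]
        rw [e]
        exact rep_scalar c
      rcases h with h | ⟨c, hc⟩
      · obtain rfl | rfl : n = 1 ∨ n = 2 := by omega
        · apply hscal (M 0 0)
          ext i j
          fin_cases i; fin_cases j
          simp
        · exact rep_two (conjBy_symm O hM)
      · exact hscal c hc
  · intro n h3
    have hsymm : (toep n 0 1 1).IsSymm := by
      ext i j
      simp only [Matrix.transpose_apply, toep, Matrix.of_apply, ite_self, zero_add]
      rw [add_comm]
      congr 1
      · simp only [eq_comm]
      · simp only [eq_comm]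
    have hns : ∀ c : ℂ, toep n 0 1 1 ≠ c • 1 := by
      intro c h
      have h1 := congrFun (congrFun h ⟨0, by omega⟩) ⟨1, by omega⟩
      simp [toep] at h1
    have hT : UnitarilyEquivalentToTTO (toep n 0 1 1) :=
      ⟨pw n, syf 0 1 1, TT (pw n) 0 1 1, mb n, isBlaschke_pw n, isTTO _ 0 1 1, mb_onb n,
        toep_matrix n 0 1 1⟩
    obtain ⟨O, hO, h⟩ := neg_part h3 hsymm hns
    exact ⟨conjBy O (toep n 0 1 1), conjBy_symm O hsymm, conj_tto hT hO, h⟩

end Pool.Agent.Results.MP_3119c3_an.EveryOperator
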